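import Pool.Agent.helper51.PC.Spec

/-!
# Row NOR: the ring of invariants is integrally closed (MP_74cfa5_ag)
-/

set_option autoImplicit false

namespace Pool.Agent.PC

open MvPolynomial

universe u

theorem NOR_io (k : Type u) [Field k] (n d : ℕ) (r : RR k n d) :
    io k n d (algebraMap (RR k n d) (FF k n d) r) = algebraMap (AA k n) (KK k n) (r : AA k n) := by
  unfold io
  rw [IsFractionRing.liftAlgHom_apply, IsFractionRing.lift_algebraMap]
  rfl

/-- The ring of invariants is integrally closed. -/
theorem NOR : NOR_stmt.{u} := by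
  intro k _ n d
  have hA : IsIntegrallyClosed (AA k n) := inferInstance
  rw [isIntegrallyClosed_iff (FF k n d)]
  intro x hx
  obtain ⟨a, b, rfl⟩ := IsLocalization.exists_mk'_eq (nonZeroDivisors (RR k n d)) x
  have h1 : IsIntegral (AA k n) ((io k n d).toRingHom (IsLocalization.mk' (FF k n d) a b)) := by
    refine IsIntegral.map_of_comp_eq (RR k n d).val.toRingHom (io k n d).toRingHom ?_ hx
    ext r
    exact (NOR_io k n d r).symm
  obtain ⟨c, hc⟩ := (isIntegrallyClosed_iff (KK k n)).1 hA h1
  have hb0 : (b : RR k n d) ≠ 0 := nonZeroDivisors.ne_zero b.2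
  have hb1 : ((b : RR k n d) : AA k n) ≠ 0 := fun h => hb0 (Subtype.ext h)
  have h2 : IsLocalization.mk' (FF k n d) a b * algebraMap (RR k n d) (FF k n d) b =
      algebraMap (RR k n d) (FF k n d) a := IsLocalization.mk'_spec _ _ _
  have h3 : (a : AA k n) = c * (b : RR k n d) := by
    apply IsFractionRing.injective (AA k n) (KK k n)
    rw [map_mul, ← NOR_io, ← NOR_io, ← h2, map_mul, hc]
    rfl
  have ha : sg k n d (a : AA k n) = a := a.2
  have hb : sg k n d ((b : RR k n d) : AA k n) = (b : RR k n d) := (b : RR k n d).2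
  have h4 : sg k n d c = c := by
    have h5 := congrArg (sg k n d) h3
    rw [map_mul, ha, hb, h3] at h5
    exact (mul_right_cancel₀ hb1 h5).symm
  refine ⟨⟨c, h4⟩, ?_⟩
  rw [IsLocalization.eq_mk'_iff_mul_eq, ← map_mul]
  congr 1
  exact Subtype.ext h3.symm

end Pool.Agent.PC
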