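import Pool.Agent.helper64.PC.SpecE

/-!
# Row pc:BFE (MP_069684_lc)
-/

set_option autoImplicit false

namespace Pool.Agent.PC

open Pool.Agent.PB

theorem BFE (hFGE : FGE_stmt) (hTER : TER_stmt) (hBFX : BFX_stmt) (hETH : ETH_stmt) : BFE_stmt := by
  intro G hT hW
  have h1 := hFGE G hT hW
  obtain ⟨hTt, hWw⟩ := hTER.2 G h1
  obtain ⟨c, hc⟩ := hETH (ter G) (fun h => hT (hTt.1 h)) (fun h => hW (hWw.1 h))
  obtain ⟨b, c', hb⟩ := hBFX G
  refine ⟨max b (c' * c), fun n hn f hf s hs => ?_⟩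
  have h2 := hb n f _ (hc n hn f (h1 n hn f hf) s hs)
  have h3 : Size (upTo G (max b (c' * c))) f (c' * (c * (s + n))) :=
    Size.mono_basis (upTo_mono (le_max_left _ _)) h2
  obtain ⟨l, hl, hl2, hl3⟩ := h3
  refine ⟨l, hl, hl2.trans ?_, hl3⟩
  rw [← mul_assoc]
  exact Nat.mul_le_mul_right _ (le_max_right _ _)

end Pool.Agent.PC
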