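import Pool.Agent.helper64.PC.SpecK

/-!
# Row pc:GRM (MP_069684_lc)
-/

set_option autoImplicit false

namespace Pool.Agent.PC

open Pool.Agent.PB Finset

theorem GRM : GRM_stmt := by
  intro P Ps _ _ _ hs G F h
  classical
  set p : Ps → Prop := fun ψ => ∃ B ∈ F, B ⊆ hs ψ with hp
  have h1 : Nat.card {ψ // p ψ} + Nat.card {ψ // ¬ p ψ} = Fintype.card Ps := by
    rw [Nat.card_eq_fintype_card, Nat.card_eq_fintype_card]
    exact Fintype.card_subtype_compl p ▸ Nat.add_sub_of_le (Fintype.card_subtype_le p)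
  have h2 : Fintype.card Ps ≤ Nat.card {ψ // p ψ} * 2 := h
  have h3 : Nat.card {ψ // ¬ p ψ} * 2 ≤ Fintype.card Ps := by omega
  have h4 : ct (fun ω : Fin G → Ps => ¬ ∃ B ∈ F, B ⊆ univ.biUnion fun g => hs (ω g)) ≤
      Nat.card {ψ // ¬ p ψ} ^ G := by
    have h5 : Nat.card (Fin G → {ψ // ¬ p ψ}) = Nat.card {ψ // ¬ p ψ} ^ G := by
      rw [Nat.card_fun, Nat.card_eq_fintype_card (α := Fin G), Fintype.card_fin]
    rw [← h5]
    let f : {ω : Fin G → Ps // ¬ ∃ B ∈ F, B ⊆ univ.biUnion fun g => hs (ω g)} →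
        (Fin G → {ψ // ¬ p ψ}) := fun ω g => ⟨ω.1 g, fun ⟨B, hB, hB2⟩ => ω.2 ⟨B, hB,
          hB2.trans (Finset.subset_biUnion_of_mem (fun g => hs (ω.1 g)) (mem_univ g))⟩⟩
    refine Nat.card_le_card_of_injective f ?_
    intro ω ω' hω
    apply Subtype.ext
    funext g
    have := congrFun hω g
    exact congrArg Subtype.val this
  have h6 : Fintype.card (Fin G → Ps) = Fintype.card Ps ^ G := by
    rw [Fintype.card_fun, Fintype.card_fin]
  rw [h6]
  calc ct (fun ω : Fin G → Ps => ¬ ∃ B ∈ F, B ⊆ univ.biUnion fun g => hs (ω g)) * 2 ^ G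
      ≤ Nat.card {ψ // ¬ p ψ} ^ G * 2 ^ G := Nat.mul_le_mul_right _ h4
    _ = (Nat.card {ψ // ¬ p ψ} * 2) ^ G := (mul_pow _ _ _).symm
    _ ≤ _ := Nat.pow_le_pow_left h3 G

end Pool.Agent.PC
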